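import Pool.Agent.H81.D3.Targets

/-!
MP_ee74d2_an, row CLW: the class at a smaller scale.
-/

set_option autoImplicit false

namespace Pool.Agent.H19.D3

open MeasureTheory Set Pool.Agent.H83.G Pool.Agent.H81.D3
open scoped ENNReal NNReal RealInnerProductSpace

theorem pf_CLW : T_CLW := by
  intro L κ R A K G hκ hK hKR hA hG
  obtain ⟨h1, h2, h3⟩ := hG
  have hK2 : 0 < K ^ 2 := by positivity
  have hR0 : 0 < R := lt_of_lt_of_le hK2 hKR
  refine ⟨h1, ?_, ?_⟩
  · intro ζ hζ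
    obtain ⟨a, b, c, d⟩ := h2 ζ hζ
    refine ⟨a, b, c, d.trans ?_⟩
    refine mul_le_mul_of_nonneg_left ?_ (by linarith)
    exact inv_anti₀ hK2 hKR
  · intro φ hφ η s r z₀ hs hs1 hr hrK
    have hrR : r ≤ R * s ^ 2 := hrK.trans (mul_le_mul_of_nonneg_right hKR (sq_nonneg s))
    refine (h3 φ hφ η s r z₀ hs hs1 hr hrR).trans (ENNReal.ofReal_le_ofReal (le_of_eq ?_))
    have hr0 : 0 < r := by linarith
    congr 1
    field_simp

end Pool.Agent.H19.D3
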