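import Pool.Agent.H81.D3.Targets

/-!
MP_ee74d2_an, row CTG: planks, tags and caps.
-/

set_option autoImplicit false

namespace Pool.Agent.H19.D3

open MeasureTheory Set Pool.Agent.H83.G Pool.Agent.H81.D3
open scoped ENNReal NNReal RealInnerProductSpace

open scoped Classical in
theorem pf_CTG : T_CTG := by
  intro D w P F hD hcap hsep htag hF hY
  -- one cap
  have hone : ∀ κ ∈ Ks 2 (w : ℝ)⁻¹, ((P.filter fun p => p.2.1 = κ).card : ℝ) ≤ D * F κ := by
    intro κ hκ
    obtain ⟨T, hT⟩ : ∃ T, T = (P.filter fun p => p.2.1 = κ).image fun p => p.1 := ⟨_, rfl⟩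
    have hTD : (T.card : ℝ) ≤ D := by
      rw [hT]
      exact htag κ
    have e1 : (P.filter fun p => p.2.1 = κ).card =
        ∑ t ∈ T, ((P.filter fun p => p.2.1 = κ).filter fun p => p.1 = t).card := by
      refine Finset.card_eq_sum_card_fiberwise ?_
      intro p hp
      rw [hT]
      exact Finset.mem_image_of_mem _ hp
    have e2 : ∀ t ∈ T, (((P.filter fun p => p.2.1 = κ).filter fun p => p.1 = t).card : ℝ) ≤
        F κ := by
      intro t _
      obtain ⟨S, hS⟩ : ∃ S, S = (P.filter fun p => p.2.1 = κ).filter fun p => p.1 = t := ⟨_, rfl⟩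
      have hmem : ∀ p ∈ S, p ∈ P ∧ p.2.1 = κ ∧ p.1 = t := by
        intro p hp
        rw [hS] at hp
        have h1 := Finset.mem_filter.1 hp
        have h2 := Finset.mem_filter.1 h1.1
        exact ⟨h2.1, h2.2, h1.2⟩
      have hinj : Set.InjOn (fun p : Pq => p.2.2) (S : Set Pq) := by
        intro p hp p' hp' h
        obtain ⟨-, h2, h3⟩ := hmem p hp
        obtain ⟨-, h2', h3'⟩ := hmem p' hp'
        exact Prod.ext (h3.trans h3'.symm) (Prod.ext (h2.trans h2'.symm) h)
      rw [← hS, ← Finset.card_image_of_injOn hinj]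
      refine hY κ hκ _ ?_ ?_
      · intro x hx x' hx' hne
        obtain ⟨p, hp, rfl⟩ := Finset.mem_image.1 hx
        obtain ⟨p', hp', rfl⟩ := Finset.mem_image.1 hx'
        obtain ⟨h1, h2, h3⟩ := hmem p hp
        obtain ⟨h1', h2', h3'⟩ := hmem p' hp'
        refine hsep p h1 p' h1' (fun h => hne (by rw [h])) (h3.trans h3'.symm)
          (h2.trans h2'.symm)
      · intro x hx
        obtain ⟨p, hp, rfl⟩ := Finset.mem_image.1 hx
        obtain ⟨h1, h2, h3⟩ := hmem p hp
        refine ⟨p.1, ?_⟩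
        have e : ((p.1, κ, p.2.2) : Pq) = p := Prod.ext rfl (Prod.ext h2.symm rfl)
        rw [e]
        exact h1
    rw [e1]
    push_cast
    calc ∑ t ∈ T, (((P.filter fun p => p.2.1 = κ).filter fun p => p.1 = t).card : ℝ)
        ≤ ∑ _t ∈ T, F κ := Finset.sum_le_sum e2
      _ = T.card * F κ := by rw [Finset.sum_const, nsmul_eq_mul]
      _ ≤ D * F κ := mul_le_mul_of_nonneg_right hTD (hF κ)
  have e3 : P.card = ∑ κ ∈ Ks 2 (w : ℝ)⁻¹, (P.filter fun p => p.2.1 = κ).card :=
    Finset.card_eq_sum_card_fiberwise fun p hp => hcap p hp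
  rw [e3]
  push_cast
  rw [Finset.mul_sum]
  exact Finset.sum_le_sum hone

end Pool.Agent.H19.D3
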